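import Pool.Agent.U587.PW.Stp

/-!
# Orbits along the times `[a n^θ]`: all multiples `a` outside a set of Hausdorff dimension less than one

Let `Y` be a locally compact second countable Hausdorff space (for example `G / Γ`), `μ` a probability measure on `Y`,
and let `y 1, y 2, ...` (for example `y m = u(m) x`) be equidistributed with respect to `μ`. Let `d ≥ 1` and let `Θ` be
a countable set of exponents in `(0, d]`, for example all the rational ones. There is ONE set `D` of real numbers, of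
Hausdorff dimension at most `1 - 1 / (2^(4 d + 6) d) < 1`, such that for ALL `a > 0` outside of `D` and all `θ` in `Θ`
the sequence `y [a n^θ]`, `n = 1, 2, ...`, is equidistributed with respect to `μ`.

The starting result `AlmostEveryMultiple` has one `θ` and almost every `a > 0`.

Proof. For a function `F` which is bounded and Lipschitz the mean square over `a ∈ [1, 2]` of the difference of the
averages of `F(a n^θ)` over `N / 2 < n ≤ N` and of `F(a v^θ)` over `N / 2 < v ≤ N` is `O(N^(-δ))`, `δ = 2^(-4 d - 6)`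
(van der Corput's estimate for the sums with the phases `t log n`, and Parseval in the variable `log a`, from the
starting library, here with explicit exponents). It is Lipschitz in `a` with constant `O(N^d)`, and a covering argument
along `N = (l + 1)^(k q)`, `k = 2^(4 d + 6)`, `q → ∞`, gives the dimension. This is applied to the averages of the step
function `t ↦ f(y [t])` over short intervals `[t, t + h]`, and to a bump function around the integers, which controls
the error. A countable set of test functions `f` is enough.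
-/

set_option autoImplicit false

namespace Pool.Agent.Results.MP_4ace04_an.ExceptionalMultiples

open Filter Topology MeasureTheory BoundedContinuousFunction

/-- `z 1, z 2, ...` is equidistributed with respect to `μ` -/
def Equidistributed {Y : Type} [TopologicalSpace Y] [MeasurableSpace Y] (μ : Measure Y) (z : ℕ → Y) : Prop :=
  ∀ f : Y → ℂ, Continuous f → HasCompactSupport f →
    Tendsto (fun N : ℕ => (1 / (N : ℂ)) * ∑ n ∈ Finset.Icc 1 N, f (z n)) atTop (𝓝 (∫ x, f x ∂μ))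

theorem equi_of_dense {Y : Type} [TopologicalSpace Y] [T2Space Y] [LocallyCompactSpace Y]
    [SecondCountableTopology Y] [MeasurableSpace Y] [BorelSpace Y] (μ : Measure Y) [IsProbabilityMeasure μ]
    (z : ℕ → Y) (D : Set (Y →ᵇ ℂ)) (hSD : {f : Y →ᵇ ℂ | HasCompactSupport f} ⊆ closure D)
    (hD : ∀ g ∈ D, Tendsto (fun N : ℕ => (1 / (N : ℂ)) * ∑ n ∈ Finset.Icc 1 N, g (z n)) atTop
      (𝓝 (∫ x, g x ∂μ))) : Equidistributed μ z := by
  intro f hf hfs
  obtain ⟨C, hC⟩ := hfs.exists_bound_of_continuous hf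
  obtain ⟨F, hF⟩ : ∃ F : Y →ᵇ ℂ, F = BoundedContinuousFunction.ofNormedAddCommGroup f hf C hC := ⟨_, rfl⟩
  have hFf : ∀ x, F x = f x := fun x => by rw [hF]; rfl
  have hFS : F ∈ {f : Y →ᵇ ℂ | HasCompactSupport f} := by
    have : (F : Y → ℂ) = f := funext hFf
    change HasCompactSupport (F : Y → ℂ)
    rw [this]
    exact hfs
  rw [Metric.tendsto_atTop]
  intro ε hε
  obtain ⟨g, hg, hfg⟩ := Metric.mem_closure_iff.1 (hSD hFS) (ε / 4) (by positivity)
  rw [dist_eq_norm] at hfg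
  obtain ⟨N0, hN0⟩ := (Metric.tendsto_atTop.1 (hD g hg)) (ε / 4) (by positivity)
  refine ⟨max N0 1, fun N hN => ?_⟩
  have h2 := hN0 N ((le_max_left _ _).trans hN)
  have hN1 : (0 : ℝ) < N := by exact_mod_cast (le_max_right _ _).trans hN
  rw [dist_eq_norm] at h2 ⊢
  have h3 : ∀ x, ‖f x - g x‖ ≤ ε / 4 := fun x => by
    have h4 : ‖(F - g) x‖ ≤ ‖F - g‖ := (F - g).norm_coe_le_norm x
    rw [BoundedContinuousFunction.coe_sub, Pi.sub_apply, hFf] at h4
    exact h4.trans hfg.le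
  have hfi : Integrable f μ := by
    have : (F : Y → ℂ) = f := funext hFf
    rw [← this]
    exact F.integrable μ
  have e1 : (1 / (N : ℂ)) * ∑ n ∈ Finset.Icc 1 N, f (z n) - ∫ x, f x ∂μ =
      ((1 / (N : ℂ)) * ∑ n ∈ Finset.Icc 1 N, g (z n) - ∫ x, g x ∂μ) +
        ((1 / (N : ℂ)) * ∑ n ∈ Finset.Icc 1 N, (f (z n) - g (z n)) - ∫ x, (f x - g x) ∂μ) := by
    rw [integral_sub hfi (g.integrable μ), Finset.sum_sub_distrib]
    ring
  have h5 : ‖(1 / (N : ℂ)) * ∑ n ∈ Finset.Icc 1 N, (f (z n) - g (z n))‖ ≤ ε / 4 := by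
    rw [norm_mul, norm_div, norm_one, Complex.norm_natCast]
    have h6 : ‖∑ n ∈ Finset.Icc 1 N, (f (z n) - g (z n))‖ ≤ N * (ε / 4) := by
      refine (norm_sum_le _ _).trans ((Finset.sum_le_sum fun n _ => h3 _).trans ?_)
      simp
    calc 1 / (N : ℝ) * ‖∑ n ∈ Finset.Icc 1 N, (f (z n) - g (z n))‖ ≤ 1 / (N : ℝ) * (N * (ε / 4)) := by gcongr
      _ = ε / 4 := by field_simp
  have h6 : ‖∫ x, (f x - g x) ∂μ‖ ≤ ε / 4 := by
    have := norm_integral_le_of_norm_le_const (μ := μ) (f := fun x => f x - g x) (ae_of_all _ h3)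
    simpa using this
  rw [e1]
  have h7 := norm_add_le ((1 / (N : ℂ)) * ∑ n ∈ Finset.Icc 1 N, g (z n) - ∫ x, g x ∂μ)
    ((1 / (N : ℂ)) * ∑ n ∈ Finset.Icc 1 N, (f (z n) - g (z n)) - ∫ x, (f x - g x) ∂μ)
  have h8 := norm_sub_le ((1 / (N : ℂ)) * ∑ n ∈ Finset.Icc 1 N, (f (z n) - g (z n)))
    (∫ x, (f x - g x) ∂μ)
  linarith

lemma dk_eq (d : ℕ) : Pool.Agent.U587.PT.dk (Pool.Agent.U587.PT.kD d) d =
    ENNReal.ofReal (1 - 1 / (2 ^ (4 * d + 6) * (d : ℝ))) := by
  unfold Pool.Agent.U587.PT.dk Pool.Agent.U587.PT.kD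
  congr 2
  push_cast
  rfl

/-- **Sampling along `[a n^θ]` for all `a > 0` outside a set of dimension at most `1 - 1 / (2^(4 d + 6) d)`, and all
`θ` in a countable subset of `(0, d]`** -/
theorem result {Y : Type} [TopologicalSpace Y] [T2Space Y] [LocallyCompactSpace Y]
    [SecondCountableTopology Y] [MeasurableSpace Y] [BorelSpace Y] (μ : Measure Y) [IsProbabilityMeasure μ]
    (y : ℕ → Y) (hy : Equidistributed μ y) (d : ℕ) (Θ : Set ℝ) (hΘ : Θ.Countable)
    (hΘd : ∀ θ ∈ Θ, 0 < θ ∧ θ ≤ d) :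
    ∃ D : Set ℝ, dimH D ≤ ENNReal.ofReal (1 - 1 / (2 ^ (4 * d + 6) * (d : ℝ))) ∧
      ∀ a : ℝ, 0 < a → a ∉ D → ∀ θ ∈ Θ, Equidistributed μ fun n : ℕ => y ⌊a * (n : ℝ) ^ θ⌋₊ := by
  obtain ⟨T, hTS, hTc, hST⟩ :
      ∃ T ⊆ {f : Y →ᵇ ℂ | HasCompactSupport f}, T.Countable ∧ {f : Y →ᵇ ℂ | HasCompactSupport f} ⊆ closure T := by
    obtain ⟨T, hTS, hT, hST⟩ := (Pool.Agent.Y957.VK.sep_cs Y).exists_countable_dense_subset
    exact ⟨T, hTS, hT, hST⟩
  have hex : ∀ (g : T) (θ : Θ), ∃ D : Set ℝ, dimH D ≤ ENNReal.ofReal (1 - 1 / (2 ^ (4 * d + 6) * (d : ℝ))) ∧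
      ∀ a : ℝ, 0 < a → a ∉ D → Tendsto (fun N : ℕ => (1 / (N : ℂ)) *
      ∑ n ∈ Finset.Icc 1 N, g.1 (y ⌊a * (n : ℝ) ^ θ.1⌋₊)) atTop (𝓝 (∫ x, g.1 x ∂μ)) := by
    rintro ⟨g, hg⟩ ⟨θ, hθ⟩
    obtain ⟨hθ0, hθd⟩ := hΘd θ hθ
    have hd0 : 0 < d := by
      rcases Nat.eq_zero_or_pos d with h | h
      · rw [h, Nat.cast_zero] at hθd
        linarith
      · exact h
    obtain ⟨D, hD, h⟩ := Pool.Agent.U587.PW.seq_case hd0 (Pool.Agent.U587.PW.dat_pow hθ0 hθd)
      (b := fun m => g (y m)) (C := ‖g‖) (fun m => g.norm_coe_le_norm _) (hy g g.continuous (hTS hg))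
    rw [dk_eq] at hD
    exact ⟨D, hD, h⟩
  choose D hD hDa using hex
  have := hTc.to_subtype
  have := hΘ.to_subtype
  refine ⟨⋃ g, ⋃ θ, D g θ, ?_, fun a ha haD θ hθ => ?_⟩
  · rw [dimH_iUnion]
    refine iSup_le fun g => ?_
    rw [dimH_iUnion]
    exact iSup_le fun θ => hD g θ
  · simp only [Set.mem_iUnion, not_exists] at haD
    exact equi_of_dense μ _ T hST fun g hg => hDa ⟨g, hg⟩ ⟨θ, hθ⟩ a ha (haD _ _)

end Pool.Agent.Results.MP_4ace04_an.ExceptionalMultiples
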